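import Pool.Agent.Helper45.CX.Core
/-!
# Klt complements of bounded index for contractions of T-varieties of complexity one

Combinatorial form of Shokurov's conjecture on klt complements for varieties with a torus action of
complexity one.  The dictionary described here is standard (Altmann-Hausen-Süss, Petersen-Süss,
Liendo-Süss) and not formalised: the Lean is about the combinatorial data of such a variety.

Let `f : X → Z` be a contraction, `X` klt, `-K_X` ample over `Z`, with an effective action of a
torus of dimension `e = dim X - 1` on `X`.  By Blanchard's lemma it acts on `Z` and `f` is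
equivariant; by Sumihiro's theorem `z` has an invariant affine open neighbourhood `Z₀`.  Replace `X`
by the preimage `X₀` of `Z₀`.  The field of the invariant rational functions is the function field of
a smooth projective curve `C`; the semi-invariant rational functions are `f χ^u`, `f ∈ k(C)`,
`u ∈ M = ℤ^e`.  An invariant valuation is given by a point `p ∈ C` and `(w, k)`, `w ∈ N`, `k ≥ 0`,
with the value `⟨u, w⟩ + k ord_p f` on `f χ^u`.  So the invariant prime divisors of `X` have vectors
`(v, 0)` (horizontal) or `(v, h)`, `h ≥ 1` (vertical, over `p`); for all points of `C` outside a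
finite set of special points the only vertical divisor is `(0, 1)` in each chart.

* If `Z₀` has a nonconstant invariant function, the quotient of `Z₀` is an affine open subset of `C`
  (a function in `k(C)` is algebraic over `Frac k[Z₀]^T`, a multiple is integral over `k[Z₀]^T`, hence
  in `k(Z)` as `f` is a contraction, hence in `k[Z₀]^T` as `Z` is normal; so `X₀` maps to this open
  subset), which can be shrunk around the image of `z` so that it contains one special point, which is a
  principal divisor on it, and a canonical divisor is principal too.  So only the order at this point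
  matters, and the genus of `C` plays no role.  One more special point without vertical divisors
  stands for the points of `C` outside the curve: over it `k = 0`, and `t_p`, `z_p` are free there.
* Otherwise `Z₀` has a unique closed orbit, and the fibre over a point of it of a resolution of `X₀`
  with a morphism to `C` is mapped onto `C`; it is rationally chain connected (Hacon-McKernan), so
  `C = P^1`.  (If `-K_X` is only nef over `Z` this has to be assumed.)

`X₀` is covered by finitely many invariant affine open sets, the charts, on each of which some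
semi-invariant section `f χ^u` of some `O(-n K_X)` is a generator (such sections exist as `-K_X` is
ample over the affine `Z₀`).  The chart is `complete` if it has no nonconstant invariant function
(then every point of `C = P^1` is a point of its quotient).  The valuations with centre on a chart
are those which are nonnegative on its functions: by duality of cones these are the `(w, k)` with
`Contains`; the same holds for `Z₀` with all the divisors of `X₀`, so the properness of `f` gives
`IsContraction` (with at least one chart).  The theorem is more general than needed: the vectors need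
not be primitive, the charts need not be separated, and ampleness is only used as `AntiNef`; `r ≥ 2`
is no restriction, as every point may be declared special, with the vertical divisor `(0, 1)`; and
`ε > 1` does not occur, as the divisors of `X` have log discrepancy one.  (`l` is the mass over all the points different from `p`; if a point has no
vertical divisor then `l = 0` automatically.)

A canonical divisor is `∑ (h (c_p + 1) - 1) D_(v, h) - ∑ D_v` where `∑ c_p p` is a canonical divisor
of `C`.  So `f χ^u` is a section of `O(-n K_X)` over `Z₀` iff with `z_p = ord_p f - n c_p` one has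
`⟨u, v⟩ ≥ -n`, `⟨u, v⟩ + h (z_p - n) ≥ -n`, in particular `z_p ≥ 0` at the points which are not
special; as the degree of `(f)` is zero, `f` exists for given orders at least `z_p` at the special
points iff their sum is at most `2 n`, and then the orders of a general such `f` are exactly `z_p`.
With `t = z / n - 1` the section which generates `O(-n K_X)` on the chart `c` gives `ψ c = (u / n, t)`
with the properties `AntiNef`, and the log discrepancy of the divisor of a primitive `(w, k)` in the
chart is `-(⟨u / n, w⟩ + k t_p)`; over a point which is not special `t = -1`, and the chart contains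
`(w, k)` iff it contains `(w, 0)`.

The complement.  On a toroidal resolution of `X₀` the base ideal of the linear system spanned by all
`f χ^u` with `(u, z) ∈ T` and `ord_p f - n c_p ≥ z_p` at the special points is generated by
monomials in the local equations of the invariant divisors over the special points and of the
horizontal divisors.  So on a further toroidal resolution the fixed part has the multiplicities
`min_T (⟨u, w⟩ + k (z_p - n)) - n (⟨u_c, w⟩ + k t_p)`, `ψ c = (u_c, t)`, and the moving part is base
point free; for a general member `D` and `n ≥ 2` the pair `(X, D / n)` is klt over `Z₀` if and only if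
all the log discrepancies `logDisc` are positive, and `n (K_X + D / n)` is linearly equivalent to
zero over `Z₀`.

Proof.  `IsContraction`, `AntiNef`, `IsLc` give: in every decomposition of a lattice vector over `p`
the cost `∑ a + ∑ b + (2 - r) l` is at least `ε` (`EE`).  This implies `∑ (1 - 1 / h) ≤ 2` for the
selections of one vertical divisor over each point.  So all `h ≤ 6`, or `h = 1` outside two points,
or `h ≤ 2` outside one point with at most two points with `h = 2`.  In each case the existence of
sections negative on a given direction is reduced to a statement on lattices (`span1`), in the second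
and third case by a degeneration to a toric variety (of a double cover in the third case), whose
singularities are controlled by (`EE`) and by rounding (`exists_floor`).
-/
set_option autoImplicit false
namespace Pool.Agent.Results.MP_bca9b8_ag.ComplexityOne

/-- `⟨u, w⟩` for a real functional `u` and a lattice vector `w`. -/
noncomputable def dotR {e : ℕ} (u : Fin e → ℝ) (w : Fin e → ℤ) : ℝ := ∑ i, u i * (w i : ℝ)

/-- `⟨m, w⟩` for `m ∈ M` and `w ∈ N`. -/
def dotZ {e : ℕ} (m w : Fin e → ℤ) : ℤ := ∑ i, m i * w i

/-- The divisors of a chart (an invariant open subset) of a variety with an action of a torus of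
dimension `e`, with `r` special points on the quotient curve. -/
structure Chart (e r : ℕ) where
  /-- the vectors of the horizontal divisors -/
  hor : Finset (Fin e → ℤ)
  /-- the vectors `(v, h)` of the vertical divisors over the special points -/
  ver : Fin r → Finset ((Fin e → ℤ) × ℕ)
  /-- all points of the projective line are in the quotient of the chart -/
  complete : Prop

/-- `(w, k)` is the vector of an invariant valuation over the special point `p` with centre on the
chart (`w / k` is in the polyhedron of the chart over `p`). -/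
def Chart.Contains {e r : ℕ} (C : Chart e r) (p : Fin r) (w : Fin e → ℤ) (k : ℕ) : Prop :=
  ∃ (a : (Fin e → ℤ) → ℝ) (b : Fin r → (Fin e → ℤ) × ℕ → ℝ) (l : ℝ), (∀ v, 0 ≤ a v) ∧
    (∀ q V, 0 ≤ b q V) ∧ 0 ≤ l ∧ (¬ C.complete → l = 0) ∧
    (∀ i, (w i : ℝ) = ∑ v ∈ C.hor, a v * (v i : ℝ) + ∑ q, ∑ V ∈ C.ver q, b q V * (V.1 i : ℝ)) ∧
    ∀ q, ∑ V ∈ C.ver q, b q V * (V.2 : ℝ) = l + if q = p then (k : ℝ) else 0

/-- The charts of a variety of complexity one. -/
structure TVariety (e r s : ℕ) where
  /-- the charts -/
  chart : Fin s → Chart e r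
  /-- the multiplicities of vertical divisors are positive -/
  ver_pos : ∀ c p, ∀ V ∈ (chart c).ver p, 1 ≤ V.2

variable {e r s : ℕ}

/-- All divisors. -/
def TVariety.total (X : TVariety e r s) : Chart e r where
  hor := Finset.univ.biUnion fun c => (X.chart c).hor
  ver p := Finset.univ.biUnion fun c => (X.chart c).ver p
  complete := True

/-- `X` is proper over `Z₀`: invariant valuations with centre on `Z₀` have a centre on `X`. -/
def TVariety.IsContraction (X : TVariety e r s) : Prop :=
  ∀ (p : Fin r) (w : Fin e → ℤ) (k : ℕ), X.total.Contains p w k → ∃ c, (X.chart c).Contains p w k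

/-- `K_X` is `ℝ`-Cartier with the local equations `ψ c`, and `-K_X` is nef over `Z₀`. -/
def TVariety.AntiNef (X : TVariety e r s) (ψ : Fin s → (Fin e → ℝ) × (Fin r → ℝ)) : Prop :=
  ∀ c, (∀ v ∈ X.total.hor, -1 ≤ dotR (ψ c).1 v) ∧
    (∀ p, ∀ V ∈ X.total.ver p, -1 ≤ dotR (ψ c).1 V.1 + V.2 * (ψ c).2 p) ∧
    ∑ p, ((ψ c).2 p + 1) ≤ 2 ∧
    (∀ v ∈ (X.chart c).hor, dotR (ψ c).1 v = -1) ∧
    (∀ p, ∀ V ∈ (X.chart c).ver p, dotR (ψ c).1 V.1 + V.2 * (ψ c).2 p = -1) ∧
    ((X.chart c).complete → ∑ p, ((ψ c).2 p + 1) = 2)

/-- `X` is `ε`-lc: the log discrepancy `-(⟨u, w⟩ + k t_p)`, `ψ c = (u, t)`, of the divisor of a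
nonzero lattice vector `(w, k)` over `p` in the chart `c` is at least `ε`. -/
def TVariety.IsLc (X : TVariety e r s) (ψ : Fin s → (Fin e → ℝ) × (Fin r → ℝ)) (ε : ℝ) : Prop :=
  ∀ c p (w : Fin e → ℤ) (k : ℕ), (w ≠ 0 ∨ k ≠ 0) → (X.chart c).Contains p w k →
    ε ≤ -(dotR (ψ c).1 w + k * (ψ c).2 p)

/-- `(u, z)` is a section of `-n K_X` over `Z₀`: weight `u`, orders at least `z p` at the special
points. -/
def TVariety.IsSection (X : TVariety e r s) (n : ℕ) (x : (Fin e → ℤ) × (Fin r → ℤ)) : Prop :=
  (∀ v ∈ X.total.hor, -(n : ℤ) ≤ dotZ x.1 v) ∧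
  (∀ p, ∀ V ∈ X.total.ver p, -(n : ℤ) ≤ dotZ x.1 V.1 + V.2 * (x.2 p - n)) ∧
  ∑ p, x.2 p ≤ 2 * n

/-- The log discrepancy `a(E, X, B)` for `B = D / n`, `D` a general member of the linear system of
the sections in `T`, `E` the divisor with the vector `(w, k)` over a point at which `u`, `t` is the
local equation of `K_X` and at which the sections in `T` have the orders `z`. -/
noncomputable def logDisc (u : Fin e → ℝ) (t : ℝ) (n : ℕ)
    (T : Finset ((Fin e → ℤ) × (Fin r → ℤ))) (hT : T.Nonempty)
    (z : (Fin e → ℤ) × (Fin r → ℤ) → ℤ) (w : Fin e → ℤ) (k : ℕ) : ℝ :=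
  -(dotR u w + k * t) -
    (1 / n) * T.inf' hT fun x => (dotZ x.1 w : ℝ) + k * ((z x : ℝ) - n) - n * (dotR u w + k * t)

/-- `T` defines a klt `n`-complement: `n ≥ 2`, the elements of `T` are sections of `-n K_X`, and
for `B = D / n` the log discrepancies of all invariant divisors over the special points, and of all
invariant divisors over all the other points, are positive. -/
def TVariety.IsKltComplement (X : TVariety e r s) (ψ : Fin s → (Fin e → ℝ) × (Fin r → ℝ))
    (n : ℕ) (T : Finset ((Fin e → ℤ) × (Fin r → ℤ))) : Prop :=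
  2 ≤ n ∧ (∀ x ∈ T, X.IsSection n x) ∧ ∃ hT : T.Nonempty,
    (∀ c p (w : Fin e → ℤ) (k : ℕ), (w ≠ 0 ∨ k ≠ 0) → (X.chart c).Contains p w k →
      0 < logDisc (ψ c).1 ((ψ c).2 p) n T hT (fun x => x.2 p) w k) ∧
    ∀ c p (w : Fin e → ℤ) (k : ℕ), (w ≠ 0 ∨ k ≠ 0) → (X.chart c).Contains p w 0 →
      0 < logDisc (ψ c).1 (-1) n T hT (fun _ => 0) w k

/-- The divisors as a family. -/
def TVariety.dat (X : TVariety e r s) : Pool.Agent.CX.Dat e r where
  J := {v // v ∈ X.total.hor}
  fJ := inferInstance
  g v := v.1
  I p := {V // V ∈ X.total.ver p}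
  fI := fun _ => inferInstance
  v _ V := V.1.1
  h _ V := V.1.2
  h_pos p V := by
    have h := V.2
    simp only [TVariety.total, Finset.mem_biUnion, Finset.mem_univ, true_and] at h
    obtain ⟨c, hc⟩ := h
    exact X.ver_pos c p _ hc

/-- For every contraction `X → Z` of a variety with an effective action of a torus of dimension
`e = dim X - 1`, with `X` `ε`-lc and `-K_X` ample over `Z`, there is a klt `n`-complement over every
point of `Z`, for every `n` divisible by `60` with `n ≥ (e + 1) (e + 2) 2^(e + 8) / ε`. -/
theorem result (e r s : ℕ) (hr : 2 ≤ r) (X : TVariety e r s) (hX : X.IsContraction)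
    (ψ : Fin s → (Fin e → ℝ) × (Fin r → ℝ)) (hψ : X.AntiNef ψ)
    (ε : ℝ) (hε : 0 < ε) (hε1 : ε ≤ 1) (hlc : X.IsLc ψ ε)
    (n : ℕ) (h60 : 60 ∣ n) (hn : ((e : ℝ) + 1) * (e + 2) * 2 ^ (e + 8) / ε ≤ n) :
    ∃ T : Finset ((Fin e → ℤ) × (Fin r → ℤ)), X.IsKltComplement ψ n T := by
  classical
  -- property (E)
  have hE : X.dat.EE ε := by
    intro p w k hwk a b l hdec
    obtain ⟨ha, hb, hl, hw, hk⟩ := hdec
    have hmem : X.total.Contains p w k := by
      refine ⟨fun v => if h : v ∈ X.total.hor then a ⟨v, h⟩ else 0,
        fun q V => if h : V ∈ X.total.ver q then b q ⟨V, h⟩ else 0, l, fun v => ?_, fun q V => ?_,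
        hl, fun h => absurd trivial h, fun i => ?_, fun q => ?_⟩
      · dsimp only
        split_ifs
        · exact ha _
        · exact le_refl _
      · dsimp only
        split_ifs
        · exact hb _ _
        · exact le_refl _
      · refine (hw i).trans ?_
        refine congrArg₂ (· + ·) ?_ (Finset.sum_congr rfl fun q _ => ?_)
        · rw [← Finset.sum_coe_sort X.total.hor
            (fun v => (if h : v ∈ X.total.hor then a ⟨v, h⟩ else 0) * (v i : ℝ))]
          refine Finset.sum_congr rfl fun v _ => ?_
          rw [dif_pos v.2]; rfl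
        · rw [← Finset.sum_coe_sort (X.total.ver q)
            (fun V => (if h : V ∈ X.total.ver q then b q ⟨V, h⟩ else 0) * (V.1 i : ℝ))]
          refine Finset.sum_congr rfl fun v _ => ?_
          rw [dif_pos v.2]; rfl
      · refine Eq.trans ?_ (hk q)
        rw [← Finset.sum_coe_sort (X.total.ver q)
            (fun V => (if h : V ∈ X.total.ver q then b q ⟨V, h⟩ else 0) * (V.2 : ℝ))]
        refine Finset.sum_congr rfl fun v _ => ?_
        rw [dif_pos v.2]; rfl
    obtain ⟨c, hc⟩ := hX p w k hmem
    have h1 := hlc c p w k hwk hc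
    obtain ⟨hh, hv, hs, -, -, -⟩ := hψ c
    refine h1.trans ?_
    -- the value of the local equation
    have h2 : dotR (ψ c).1 w = ∑ j : X.dat.J, a j * dotR (ψ c).1 (X.dat.g j) +
        ∑ q, ∑ i : X.dat.I q, b q i * dotR (ψ c).1 (X.dat.v q i) := by
      simp only [dotR]
      have h3 : ∀ i ∈ (Finset.univ : Finset (Fin e)), (ψ c).1 i * (w i : ℝ) =
          ∑ j : X.dat.J, a j * ((ψ c).1 i * (X.dat.g j i : ℝ)) +
            ∑ q, ∑ j : X.dat.I q, b q j * ((ψ c).1 i * (X.dat.v q j i : ℝ)) := by
        intro i _
        rw [show (w i : ℝ) = _ from hw i, mul_add, Finset.mul_sum, Finset.mul_sum]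
        refine congrArg₂ (· + ·) (Finset.sum_congr rfl fun v _ => by ring)
          (Finset.sum_congr rfl fun q _ => ?_)
        rw [Finset.mul_sum]
        exact Finset.sum_congr rfl fun v _ => by ring
      rw [Finset.sum_congr rfl h3, Finset.sum_add_distrib, Finset.sum_comm]
      refine congrArg₂ (· + ·) (Finset.sum_congr rfl fun v _ => by rw [Finset.mul_sum]) ?_
      rw [Finset.sum_comm]
      refine Finset.sum_congr rfl fun q _ => ?_
      rw [Finset.sum_comm]
      exact Finset.sum_congr rfl fun v _ => by rw [Finset.mul_sum]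
    have h4 : -∑ j : X.dat.J, a j ≤ ∑ j : X.dat.J, a j * dotR (ψ c).1 (X.dat.g j) := by
      rw [← Finset.sum_neg_distrib]
      refine Finset.sum_le_sum fun j _ => ?_
      have h5 := hh j.1 j.2
      have h6 : a j * (-1) ≤ a j * dotR (ψ c).1 (X.dat.g j) := mul_le_mul_of_nonneg_left h5 (ha j)
      linarith
    have h7 : -∑ q, ∑ i : X.dat.I q, b q i - l * ∑ q, (ψ c).2 q - k * (ψ c).2 p ≤
        ∑ q, ∑ i : X.dat.I q, b q i * dotR (ψ c).1 (X.dat.v q i) := by
      have h8 : ∀ q, -∑ i : X.dat.I q, b q i - (l + if q = p then (k : ℝ) else 0) * (ψ c).2 q ≤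
          ∑ i : X.dat.I q, b q i * dotR (ψ c).1 (X.dat.v q i) := by
        intro q
        rw [← hk q, ← Finset.sum_neg_distrib, Finset.sum_mul, ← Finset.sum_sub_distrib]
        refine Finset.sum_le_sum fun i _ => ?_
        have h5 := hv q i.1 i.2
        have h6 : b q i * (-1 - (i.1.2 : ℝ) * (ψ c).2 q) ≤ b q i * dotR (ψ c).1 (X.dat.v q i) :=
          mul_le_mul_of_nonneg_left (by
            have h9 : X.dat.v q i = i.1.1 := rfl
            rw [h9]; linarith) (hb q i)
        have h10 : (X.dat.h q i : ℝ) = (i.1.2 : ℝ) := rfl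
        rw [h10]
        linarith
      refine le_trans (le_of_eq ?_) (Finset.sum_le_sum fun q _ => h8 q)
      rw [Finset.sum_sub_distrib, Finset.sum_neg_distrib]
      simp only [add_mul, ite_mul, zero_mul]
      rw [Finset.sum_add_distrib, Finset.sum_ite_eq' Finset.univ p, ← Finset.mul_sum]
      simp only [Finset.mem_univ, if_true]
      ring
    have h11 : ∑ q, (ψ c).2 q ≤ 2 - r := by
      rw [Finset.sum_add_distrib] at hs
      simp only [Finset.sum_const, Finset.card_univ, Fintype.card_fin, nsmul_eq_mul, mul_one] at hs
      linarith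
    have h12 : l * ∑ q, (ψ c).2 q ≤ l * (2 - r) := mul_le_mul_of_nonneg_left h11 hl
    unfold Pool.Agent.CX.Dat.cost
    linarith
  have hPW := Pool.Agent.CX.core X.dat hr hε hε1 hE h60 hn
  obtain ⟨T, hT1, ⟨x₀, hx₀, hx₀'⟩, hT3⟩ := Pool.Agent.CX.exists_finset X.dat hPW
  have hTn : T.Nonempty := ⟨x₀, hx₀⟩
  have hn0 : (0 : ℝ) < n := lt_of_lt_of_le (by positivity) hn
  have hn0' : 0 < n := by exact_mod_cast hn0
  have hn2 : 2 ≤ n := by
    have := Nat.le_of_dvd hn0' h60
    omega
  refine ⟨T, hn2, fun x hx => ?_, hTn, fun c p w k hwk hc => ?_, fun c p w k hwk hc => ?_⟩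
  · obtain ⟨h1, h2, h3⟩ := hT1 x hx
    exact ⟨fun v hv => h1 ⟨v, hv⟩, fun p V hV => h2 p ⟨V, hV⟩, h3⟩
  · obtain ⟨x, hx, hneg⟩ := hT3 p (fun i => (w i : ℝ)) k (Nat.cast_nonneg _) (by
      rcases hwk with h | h
      · left
        intro h'
        apply h
        funext i
        have := congrFun h' i
        simpa using this
      · right
        exact_mod_cast h) (by
      intro hem
      obtain ⟨a, b, l, -, hb, hl, -, -, hk⟩ := hc
      have h1 := hk p
      rw [if_pos rfl] at h1
      have h2 : (X.chart c).ver p = ∅ := by
        rw [Finset.eq_empty_iff_forall_notMem]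
        intro V hV
        exact hem.false ⟨V, Finset.mem_biUnion.mpr ⟨c, Finset.mem_univ _, hV⟩⟩
      rw [h2, Finset.sum_empty] at h1
      have h3 : (0 : ℝ) ≤ k := Nat.cast_nonneg _
      linarith)
    have h1 : (dotZ x.1 w : ℝ) + k * ((x.2 p : ℝ) - n) < 0 := by
      have h2 : (dotZ x.1 w : ℝ) = ∑ i, (x.1 i : ℝ) * (w i : ℝ) := by
        rw [dotZ]; push_cast; rfl
      rw [h2]; exact hneg
    unfold logDisc
    have h3 := Finset.inf'_le (fun x : (Fin e → ℤ) × (Fin r → ℤ) => (dotZ x.1 w : ℝ) +
      k * ((x.2 p : ℝ) - n) - n * (dotR (ψ c).1 w + k * (ψ c).2 p)) hx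
    have h4 := mul_le_mul_of_nonneg_left h3 (show (0 : ℝ) ≤ 1 / n by positivity)
    have h5 : 1 / (n : ℝ) * ((dotZ x.1 w : ℝ) +
      k * ((x.2 p : ℝ) - n) - n * (dotR (ψ c).1 w + k * (ψ c).2 p)) =
        1 / (n : ℝ) * ((dotZ x.1 w : ℝ) + k * ((x.2 p : ℝ) - n)) -
          (dotR (ψ c).1 w + k * (ψ c).2 p) := by
      field_simp
    have h6 : 1 / (n : ℝ) * ((dotZ x.1 w : ℝ) + k * ((x.2 p : ℝ) - n)) < 0 :=
      mul_neg_of_pos_of_neg (by positivity) h1
    linarith
  · by_cases hw : w = 0
    · subst hw
      have hk : 0 < k := by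
        rcases hwk with h | h
        · exact absurd rfl h
        · exact Nat.pos_of_ne_zero h
      have hkr : (0 : ℝ) < k := by exact_mod_cast hk
      unfold logDisc
      have h0 : dotR (ψ c).1 (0 : Fin e → ℤ) = 0 := by simp [dotR]
      have h3 := Finset.inf'_le (fun x : (Fin e → ℤ) × (Fin r → ℤ) => (dotZ x.1 0 : ℝ) +
        k * (((0 : ℤ) : ℝ) - n) - n * (dotR (ψ c).1 0 + k * (-1))) hx₀
      have h4 := mul_le_mul_of_nonneg_left h3 (show (0 : ℝ) ≤ 1 / n by positivity)
      have h5 : (dotZ x₀.1 (0 : Fin e → ℤ) : ℝ) = 0 := by simp [dotZ]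
      rw [h5, h0] at h4
      rw [h0]
      have h6 : 1 / (n : ℝ) * (0 + k * (((0 : ℤ) : ℝ) - n) - n * (0 + k * (-1))) = 0 := by
        push_cast; ring
      linarith
    · obtain ⟨x, hx, hneg⟩ := hT3 p (fun i => (w i : ℝ)) 0 le_rfl (Or.inl (by
        intro h'
        apply hw
        funext i
        have := congrFun h' i
        simpa using this)) (fun _ => rfl)
      have h1 : (dotZ x.1 w : ℝ) < 0 := by
        have h2 : (dotZ x.1 w : ℝ) = ∑ i, (x.1 i : ℝ) * (w i : ℝ) := by
          rw [dotZ]; push_cast; rfl
        rw [h2]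
        linarith
      unfold logDisc
      have h3 := Finset.inf'_le (fun x : (Fin e → ℤ) × (Fin r → ℤ) => (dotZ x.1 w : ℝ) +
        k * (((0 : ℤ) : ℝ) - n) - n * (dotR (ψ c).1 w + k * (-1))) hx
      have h4 := mul_le_mul_of_nonneg_left h3 (show (0 : ℝ) ≤ 1 / n by positivity)
      have h5 : 1 / (n : ℝ) * ((dotZ x.1 w : ℝ) +
        k * (((0 : ℤ) : ℝ) - n) - n * (dotR (ψ c).1 w + k * (-1))) =
          1 / (n : ℝ) * (dotZ x.1 w : ℝ) - dotR (ψ c).1 w := by
        push_cast
        field_simp
        ring
      have h6 : 1 / (n : ℝ) * (dotZ x.1 w : ℝ) < 0 :=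
        mul_neg_of_pos_of_neg (by positivity) h1
      have h7 : (0 : ℝ) ≤ k := Nat.cast_nonneg _
      linarith

end Pool.Agent.Results.MP_bca9b8_ag.ComplexityOne
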