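import Pool.Agent.Helper79.KLT.Pos
/-!
# Klt complements of bounded index for contractions of spherical varieties

Combinatorial form of Shokurov's conjecture on klt complements for spherical varieties.  The
dictionary described here is standard (Luna-Vust, Knop, Brion, Luna) and not formalised: the Lean is
about the combinatorial data of a spherical variety.

Let `G` be a connected reductive group with Borel subgroup `B`, `G/H` a spherical homogeneous space,
`M = ℤ^r` the group of the weights of the `B`-semi-invariant rational functions `f_m` on `G/H`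
(`r ≤ dim G/H`), `N` its dual, `ρ(D) ∈ N` the vector of a colour `D` (a `B`-stable prime divisor of
`G/H`), and `a D ≥ 1` the coefficient of `D` in the divisor `∑ X_i + ∑ (a D) D`, which is
anticanonical on every embedding of `G/H` with `G`-stable prime divisors `X_i` (Brion, Luna).
The `G`-invariant valuations are the elements of the valuation cone
`𝒱 = {x | ⟨γ, x⟩ ≤ 0 for all γ ∈ Σ}`, `Σ` the set of the spherical roots.
Always `⟨γ, ρ(D)⟩ ≤ 2`: it is at most one if `D` is moved by a simple root in `Σ` (Luna's axiom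
A1); it is two if `γ = 2 α` and `D` is the colour moved by the simple root `α`, and not positive
for the other `γ` and this `D`; and for all other colours `⟨γ, ρ(D)⟩ = ⟨γ, α^∨⟩` with `α` a simple
root that moves `D`, which is at most two by the table of the spherical roots
(two for instance for `γ = α + α'` with orthogonal `α`, `α'`).

Let `X` be an embedding of `G/H`, `f : X → Z` a contraction (`Z` is then spherical under `G` and `f`
is equivariant) and `z ∈ Z`.  Let `Z₁` be the union of the orbits of `Z` with `G z` in their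
closure, `X₁` its preimage, given by a coloured fan `F` (Luna-Vust, Knop), `Z₀` the affine open set
of `Z₁` obtained by removing the colours which do not contain `G z`, and `X₀` its preimage; after
moving `z` in its orbit, `z ∈ Z₀`.  Let `A` be the set of the colours of `X` that meet `X₀`.  As `f`
is proper, the support of `F` is the part of `𝒱` in the cone generated by the `G`-stable divisors of
`X₁` and the `ρ(D)`, `D ∈ A`.  (`Z₀` is given by the coloured cone of `G z`, the images of the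
`G`-stable divisors and of the `ρ(D)`, `D ∈ A`, are in this cone.)

The complement.  A section `f_m` of `O_X(-n K_X)` over `X₀` generates, after multiplication with a
power of the canonical section of the pull-back of the Cartier divisor `Z₁ \ Z₀`, a simple
`G`-module of sections of a sheaf on `X₁`, which over a neighbourhood of `z` is `O_X(-n K_X)`.  On a
toroidal resolution of `X₁` no `G`-orbit is in a colour, so the base ideal of this module is
invertible, with the multiplicity `⟨m, w⟩ + n ⟨ψ, w⟩` along the `G`-stable divisor `E_w`; so the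
linear system generated by the `f_m`, `m ∈ T`, has on a further toroidal resolution the fixed part
with the multiplicities `min_T (⟨m, w⟩ + n ⟨ψ, w⟩)` and a base point free moving part.  So for a
general member `D` and `n ≥ 2` the pair `(X, D / n)` is klt over a neighbourhood of `z` if and only
if all the log discrepancies of the `E_w` (`logDisc`) are positive.
-/
set_option autoImplicit false
namespace Pool.Agent.Results.MP_bca9b8_ag.SphericalContractions

/-- `⟨u, w⟩` for a real functional `u` and a lattice vector `w`. -/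
noncomputable def dotR {r : ℕ} (u : Fin r → ℝ) (w : Fin r → ℤ) : ℝ := ∑ i, u i * (w i : ℝ)

/-- `⟨m, w⟩` for `m ∈ M` and `w ∈ N`. -/
def dotZ {r : ℕ} (m w : Fin r → ℤ) : ℤ := ∑ i, m i * w i

/-- A lattice vector seen in `N_ℝ = ℝ^r`. -/
def real {r : ℕ} (w : Fin r → ℤ) : Fin r → ℝ := fun i => (w i : ℝ)

/-- The combinatorial data of a spherical homogeneous space of rank `r` with `c` colours. -/
structure SphericalDatum (r c : ℕ) where
  /-- the spherical roots, elements of `M` -/
  roots : Finset (Fin r → ℤ)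
  /-- the vectors in `N` of the colours -/
  ρ : Fin c → (Fin r → ℤ)
  /-- the coefficients of the colours in the anticanonical divisor -/
  a : Fin c → ℕ
  /-- they are positive -/
  a_pos : ∀ D, 1 ≤ a D
  /-- spherical roots take values at most two on the colours -/
  root_le : ∀ γ ∈ roots, ∀ D, dotZ γ (ρ D) ≤ 2

/-- The valuation cone. -/
def SphericalDatum.val {r c : ℕ} (S : SphericalDatum r c) : Set (Fin r → ℝ) :=
  {x | ∀ γ ∈ S.roots, ∑ i, (γ i : ℝ) * x i ≤ 0}

/-- The cone generated by the lattice vectors in `σ.1` and the colours in `σ.2`. -/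
def SphericalDatum.coneOf {r c : ℕ} (S : SphericalDatum r c)
    (σ : Finset (Fin r → ℤ) × Finset (Fin c)) : Set (Fin r → ℝ) :=
  {x | ∃ (s : (Fin r → ℤ) → ℝ) (t : Fin c → ℝ), (∀ v, 0 ≤ s v) ∧ (∀ D, 0 ≤ t D) ∧
    ∀ i, x i = ∑ v ∈ σ.1, s v * (v i : ℝ) + ∑ D ∈ σ.2, t D * (S.ρ D i : ℝ)}

/-- The relative interior of this cone. -/
def SphericalDatum.intOf {r c : ℕ} (S : SphericalDatum r c)
    (σ : Finset (Fin r → ℤ) × Finset (Fin c)) : Set (Fin r → ℝ) :=
  {x | ∃ (s : (Fin r → ℤ) → ℝ) (t : Fin c → ℝ), (∀ v, 0 < s v) ∧ (∀ D, 0 < t D) ∧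
    ∀ i, x i = ∑ v ∈ σ.1, s v * (v i : ℝ) + ∑ D ∈ σ.2, t D * (S.ρ D i : ℝ)}

/-- `τ` consists of the generators and colours of `σ` that lie on the face cut out by some `u` which
is nonnegative on `σ`. -/
def SphericalDatum.IsFace {r c : ℕ} (S : SphericalDatum r c)
    (τ σ : Finset (Fin r → ℤ) × Finset (Fin c)) : Prop :=
  ∃ u : Fin r → ℝ, (∀ v ∈ σ.1, 0 ≤ dotR u v) ∧ (∀ D ∈ σ.2, 0 ≤ dotR u (S.ρ D)) ∧
    (∀ v, v ∈ τ.1 ↔ (v ∈ σ.1 ∧ dotR u v = 0)) ∧
    ∀ D, D ∈ τ.2 ↔ (D ∈ σ.2 ∧ dotR u (S.ρ D) = 0)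

/-- A coloured fan. A coloured cone (an orbit `Y` of the embedding) is given by the primitive
vectors of the `G`-stable prime divisors that contain `Y` and by the colours that contain `Y`. -/
structure ColouredFan {r c : ℕ} (S : SphericalDatum r c) where
  /-- the coloured cones -/
  cones : Finset (Finset (Fin r → ℤ) × Finset (Fin c))
  /-- the open orbit -/
  zero_mem : (∅, ∅) ∈ cones
  /-- the vectors of the `G`-stable divisors are primitive lattice vectors of the valuation cone -/
  primitive : ∀ σ ∈ cones, ∀ v ∈ σ.1, real v ∈ S.val ∧ v ≠ 0 ∧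
    ∀ (k : ℤ) (u : Fin r → ℤ), v = k • u → k = 1 ∨ k = -1
  /-- they generate faces without colours -/
  ray_face : ∀ σ ∈ cones, ∀ v ∈ σ.1, S.IsFace ({v}, ∅) σ
  /-- the cones contain no line -/
  pointed : ∀ σ ∈ cones, ∀ x ∈ S.coneOf σ, -x ∈ S.coneOf σ → x = 0
  /-- the colours of a coloured cone have nonzero vectors -/
  colour_ne : ∀ σ ∈ cones, ∀ D ∈ σ.2, S.ρ D ≠ 0
  /-- the relative interior of a coloured cone meets the valuation cone -/
  int_val : ∀ σ ∈ cones, ∃ x ∈ S.intOf σ, x ∈ S.val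
  /-- the faces whose relative interior meets the valuation cone are in the fan -/
  face_mem : ∀ σ ∈ cones, ∀ τ, S.IsFace τ σ → (∃ x ∈ S.intOf τ, x ∈ S.val) → τ ∈ cones
  /-- the relative interiors are disjoint in the valuation cone -/
  disjoint : ∀ σ ∈ cones, ∀ τ ∈ cones, (∃ x ∈ S.val, x ∈ S.intOf σ ∧ x ∈ S.intOf τ) → σ = τ

variable {r c : ℕ} {S : SphericalDatum r c}

/-- `v` is the vector of a `G`-stable prime divisor. -/
def ColouredFan.IsRay (F : ColouredFan S) (v : Fin r → ℤ) : Prop := ∃ σ ∈ F.cones, v ∈ σ.1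

/-- The coloured fan `F` and the set `A` of colours belong to the contraction `X → Z`: `A` contains
the colours of all coloured cones, and the part of the valuation cone in the cone generated by the
`G`-stable divisors and by the colours in `A` is covered by the fan. -/
def ColouredFan.IsContraction (F : ColouredFan S) (A : Finset (Fin c)) : Prop :=
  (∀ σ ∈ F.cones, σ.2 ⊆ A) ∧
    ∀ x ∈ S.coneOf (F.cones.biUnion Prod.fst, A), x ∈ S.val → ∃ σ ∈ F.cones, x ∈ S.coneOf σ

/-- `K_X` is `ℝ`-Cartier with local equations `ψ σ`, and `-K_X` is nef over `Z`. -/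
def ColouredFan.AntiNef (F : ColouredFan S) (A : Finset (Fin c))
    (ψ : Finset (Fin r → ℤ) × Finset (Fin c) → (Fin r → ℝ)) : Prop :=
  ∀ σ ∈ F.cones, (∀ v ∈ σ.1, dotR (ψ σ) v = 1) ∧ (∀ D ∈ σ.2, dotR (ψ σ) (S.ρ D) = S.a D) ∧
    (∀ v, F.IsRay v → dotR (ψ σ) v ≤ 1) ∧ ∀ D ∈ A, dotR (ψ σ) (S.ρ D) ≤ S.a D

/-- `X` is `ε`-lc: the log discrepancy `⟨ψ σ, w⟩` of the `G`-stable divisor of every nonzero lattice
vector `w` of the valuation cone in a coloured cone `σ` is at least `ε`. -/
def ColouredFan.IsLc (F : ColouredFan S)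
    (ψ : Finset (Fin r → ℤ) × Finset (Fin c) → (Fin r → ℝ)) (ε : ℝ) : Prop :=
  ∀ σ ∈ F.cones, ∀ w : Fin r → ℤ, w ≠ 0 → real w ∈ S.val → real w ∈ S.coneOf σ →
    ε ≤ dotR (ψ σ) w

/-- The multiplicity along the `G`-stable divisor `E_w` (`w` in a coloured cone with local equation
`u = ψ σ`) of a general member of the linear system generated by the simple `G`-modules with the
highest weight vectors `f_m`, `m ∈ T`: the minimum over `m ∈ T` of `⟨m, w⟩ + n ⟨u, w⟩`. -/
noncomputable def multGeneral (u : Fin r → ℝ) (n : ℕ) (T : Finset (Fin r → ℤ))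
    (hT : T.Nonempty) (w : Fin r → ℤ) : ℝ :=
  T.inf' hT fun m => (dotZ m w : ℝ) + n * dotR u w

/-- The log discrepancy `a(E_w, X, B)` for `B = D / n`, `D` a general member of this system. -/
noncomputable def logDisc (u : Fin r → ℝ) (n : ℕ) (T : Finset (Fin r → ℤ))
    (hT : T.Nonempty) (w : Fin r → ℤ) : ℝ :=
  dotR u w - (1 / n) * multGeneral u n T hT w

/-- `T` defines a klt `n`-complement: `n ≥ 2`, the `f_m`, `m ∈ T`, are sections of `O_X(-n K_X)`
over `Z₀`, and for `B = D / n` all log discrepancies of `G`-stable divisors are positive. -/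
def ColouredFan.IsKltComplement (F : ColouredFan S) (A : Finset (Fin c))
    (ψ : Finset (Fin r → ℤ) × Finset (Fin c) → (Fin r → ℝ)) (n : ℕ)
    (T : Finset (Fin r → ℤ)) : Prop :=
  2 ≤ n ∧ (∀ m ∈ T, (∀ v, F.IsRay v → -(n : ℤ) ≤ dotZ m v) ∧
    ∀ D ∈ A, -((n : ℤ) * S.a D) ≤ dotZ m (S.ρ D)) ∧
  ∃ hT : T.Nonempty, ∀ σ ∈ F.cones, ∀ w : Fin r → ℤ, w ≠ 0 → real w ∈ S.val →
    real w ∈ S.coneOf σ → 0 < logDisc (ψ σ) n T hT w

/-- For every contraction `X → Z` of a spherical variety of rank `r ≤ d`, for instance of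
dimension `d`, with `X` `ε`-lc and `-K_X` nef over `Z` (for instance ample over `Z`), there is a klt
`n`-complement over every point for every integer `n ≥ 2` with `n ≥ d 2^(d+5) / ε`. -/
theorem result (r c d : ℕ) (hd : r ≤ d) (S : SphericalDatum r c) (F : ColouredFan S)
    (A : Finset (Fin c)) (hA : F.IsContraction A)
    (ψ : Finset (Fin r → ℤ) × Finset (Fin c) → (Fin r → ℝ)) (hψ : F.AntiNef A ψ)
    (ε : ℝ) (hε : 0 < ε) (hε1 : ε ≤ 1) (hlc : F.IsLc ψ ε)
    (n : ℕ) (hn2 : 2 ≤ n) (hn : d * 2 ^ (d + 5) / ε ≤ n) :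
    ∃ T : Finset (Fin r → ℤ), F.IsKltComplement A ψ n T := by
  classical
  set rays : Finset (Fin r → ℤ) := F.cones.biUnion Prod.fst with hraysdef
  have hrays : ∀ v, v ∈ rays ↔ F.IsRay v := by
    intro v
    simp only [hraysdef, Finset.mem_biUnion, ColouredFan.IsRay]
  -- the functionals
  let lin : (Fin r → ℝ) → (Fin r → ℤ) →+ ℝ := fun x =>
    { toFun := fun m => ∑ i, (m i : ℝ) * x i
      map_zero' := by simp
      map_add' := by
        intro a b
        rw [← Finset.sum_add_distrib]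
        refine Finset.sum_congr rfl fun i _ => ?_
        rw [Pi.add_apply]; push_cast; ring }
  have hlin : ∀ x m, lin x m = ∑ i, (m i : ℝ) * x i := fun _ _ => rfl
  have hlin1 : ∀ x i, lin x (Pi.single i 1) = x i := by
    intro x i
    rw [hlin, Finset.sum_eq_single i]
    · simp
    · intro b _ hb
      rw [Pi.single_eq_of_ne hb]; simp
    · intro h; exact absurd (Finset.mem_univ _) h
  let V : {v // v ∈ rays} ⊕ {D // D ∈ A} → (Fin r → ℤ) →+ ℝ := Sum.elim
    (fun v => lin (real v.1)) (fun D => lin fun i => (S.ρ D.1 i : ℝ) / S.a D.1)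
  have haD : ∀ D, (1 : ℝ) ≤ S.a D := fun D => by exact_mod_cast S.a_pos D
  have hV : ∀ w : (Fin r → ℤ) →+ ℤ, w ≠ 0 → ∀ a : {v // v ∈ rays} ⊕ {D // D ∈ A} → ℝ,
      (∀ i, 0 ≤ a i) → (∀ m, (w m : ℝ) = ∑ i, a i * V i m) → ε / 2 ≤ ∑ i, a i := by
    intro w hw a ha hwa
    let w' : Fin r → ℤ := fun i => w (Pi.single i 1)
    have hw'0 : w' ≠ 0 := by
      intro h
      apply hw
      ext i
      have := congrFun h i
      simpa [w'] using this
    have hcoord : ∀ i, (w' i : ℝ) = ∑ v : {v // v ∈ rays}, a (Sum.inl v) * (v.1 i : ℝ) +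
        ∑ D : {D // D ∈ A}, a (Sum.inr D) / S.a D.1 * (S.ρ D.1 i : ℝ) := by
      intro i
      show ((w (Pi.single i 1) : ℤ) : ℝ) = _
      rw [hwa, Fintype.sum_sum_type]
      refine congrArg₂ (· + ·) (Finset.sum_congr rfl fun v _ => ?_)
        (Finset.sum_congr rfl fun D _ => ?_)
      · show a (Sum.inl v) * lin (real v.1) (Pi.single i 1) = _
        rw [hlin1]; rfl
      · show a (Sum.inr D) * lin (fun i => (S.ρ D.1 i : ℝ) / S.a D.1) (Pi.single i 1) = _
        rw [hlin1]; ring
    -- values of a functional on `w'`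
    have hval : ∀ u : Fin r → ℝ, dotR u w' = ∑ v : {v // v ∈ rays}, a (Sum.inl v) * dotR u v.1 +
        ∑ D : {D // D ∈ A}, a (Sum.inr D) / S.a D.1 * dotR u (S.ρ D.1) := by
      intro u
      simp only [dotR]
      have h4 : ∀ i ∈ (Finset.univ : Finset (Fin r)), u i * (w' i : ℝ) =
          ∑ v : {v // v ∈ rays}, a (Sum.inl v) * (u i * (v.1 i : ℝ)) +
          ∑ D : {D // D ∈ A}, a (Sum.inr D) / S.a D.1 * (u i * (S.ρ D.1 i : ℝ)) := by
        intro i _
        rw [hcoord i, mul_add, Finset.mul_sum, Finset.mul_sum]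
        exact congrArg₂ (· + ·) (Finset.sum_congr rfl fun v _ => by ring)
          (Finset.sum_congr rfl fun D _ => by ring)
      rw [Finset.sum_congr rfl h4, Finset.sum_add_distrib, Finset.sum_comm,
        Finset.sum_comm (s := (Finset.univ : Finset (Fin r)))
          (t := (Finset.univ : Finset {D // D ∈ A}))]
      refine congrArg₂ (· + ·) (Finset.sum_congr rfl fun v _ => ?_)
        (Finset.sum_congr rfl fun D _ => ?_)
      · rw [Finset.mul_sum]
      · rw [Finset.mul_sum]
    rw [Fintype.sum_sum_type]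
    have hsplit : ∑ D : {D // D ∈ A}, a (Sum.inr D) / S.a D.1 ≤
        ∑ D : {D // D ∈ A}, a (Sum.inr D) := by
      refine Finset.sum_le_sum fun D _ => ?_
      exact div_le_self (ha _) (haD _)
    have h0v : 0 ≤ ∑ v : {v // v ∈ rays}, a (Sum.inl v) := Finset.sum_nonneg fun v _ => ha _
    by_cases hwV : real w' ∈ S.val
    · -- `w'` is a valuation
      have hmem : real w' ∈ S.coneOf (rays, A) := by
        refine ⟨fun v => if h : v ∈ rays then a (Sum.inl ⟨v, h⟩) else 0,
          fun D => if h : D ∈ A then a (Sum.inr ⟨D, h⟩) / S.a D else 0, fun v => ?_, fun D => ?_,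
          fun i => ?_⟩
        · dsimp only
          split_ifs
          · exact ha _
          · exact le_refl _
        · dsimp only
          split_ifs
          · exact div_nonneg (ha _) (by linarith [haD D])
          · exact le_refl _
        · show (w' i : ℝ) = _
          rw [hcoord i]
          refine congrArg₂ (· + ·) ?_ ?_
          · rw [← Finset.sum_coe_sort rays
              (fun v => (if h : v ∈ rays then a (Sum.inl ⟨v, h⟩) else 0) * (v i : ℝ))]
            refine Finset.sum_congr rfl fun v _ => ?_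
            rw [dif_pos v.2]
          · rw [← Finset.sum_coe_sort A
              (fun D => (if h : D ∈ A then a (Sum.inr ⟨D, h⟩) / S.a D else 0) * (S.ρ D i : ℝ))]
            refine Finset.sum_congr rfl fun D _ => ?_
            rw [dif_pos D.2]
      obtain ⟨σ, hσ, hσw⟩ := hA.2 _ hmem hwV
      have h2 := hlc σ hσ w' hw'0 hwV hσw
      rw [hval] at h2
      have h3 : ∑ v : {v // v ∈ rays}, a (Sum.inl v) * dotR (ψ σ) v.1 ≤
          ∑ v : {v // v ∈ rays}, a (Sum.inl v) := by
        refine Finset.sum_le_sum fun v _ => ?_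
        have h5 := (hψ σ hσ).2.2.1 v.1 ((hrays v.1).1 v.2)
        calc a (Sum.inl v) * dotR (ψ σ) v.1 ≤ a (Sum.inl v) * 1 :=
              mul_le_mul_of_nonneg_left h5 (ha _)
          _ = a (Sum.inl v) := mul_one _
      have h4 : ∑ D : {D // D ∈ A}, a (Sum.inr D) / S.a D.1 * dotR (ψ σ) (S.ρ D.1) ≤
          ∑ D : {D // D ∈ A}, a (Sum.inr D) := by
        refine Finset.sum_le_sum fun D _ => ?_
        have h5 := (hψ σ hσ).2.2.2 D.1 D.2
        have h6 : (0 : ℝ) < S.a D.1 := by linarith [haD D.1]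
        calc a (Sum.inr D) / S.a D.1 * dotR (ψ σ) (S.ρ D.1) ≤
              a (Sum.inr D) / S.a D.1 * S.a D.1 :=
              mul_le_mul_of_nonneg_left h5 (div_nonneg (ha _) h6.le)
          _ = a (Sum.inr D) := div_mul_cancel₀ _ h6.ne'
      linarith
    · -- `w'` is not a valuation
      have hex : ∃ γ ∈ S.roots, 0 < ∑ i, (γ i : ℝ) * real w' i := by
        by_contra hcon
        push Not at hcon
        exact hwV hcon
      obtain ⟨γ, hγ, hγw⟩ := hex
      have h1 : (1 : ℝ) ≤ dotR (fun i => (γ i : ℝ)) w' := by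
        have h2 : dotR (fun i => (γ i : ℝ)) w' = ((dotZ γ w' : ℤ) : ℝ) := by
          rw [dotR, dotZ]; push_cast; rfl
        have h3 : ∑ i, (γ i : ℝ) * real w' i = ((dotZ γ w' : ℤ) : ℝ) := by
          rw [dotZ]; push_cast; rfl
        rw [h3] at hγw
        rw [h2]
        have h4 : 0 < dotZ γ w' := by exact_mod_cast hγw
        exact_mod_cast h4
      rw [hval] at h1
      have h3 : ∑ v : {v // v ∈ rays}, a (Sum.inl v) * dotR (fun i => (γ i : ℝ)) v.1 ≤ 0 := by
        refine Finset.sum_nonpos fun v _ => ?_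
        obtain ⟨σ, hσ, hv⟩ := (hrays v.1).1 v.2
        have h5 := (F.primitive σ hσ v.1 hv).1 γ hγ
        exact mul_nonpos_of_nonneg_of_nonpos (ha _) h5
      have h4 : ∑ D : {D // D ∈ A}, a (Sum.inr D) / S.a D.1 *
          dotR (fun i => (γ i : ℝ)) (S.ρ D.1) ≤ 2 * ∑ D : {D // D ∈ A}, a (Sum.inr D) := by
        rw [Finset.mul_sum]
        refine Finset.sum_le_sum fun D _ => ?_
        have h5 : dotR (fun i => (γ i : ℝ)) (S.ρ D.1) ≤ 2 := by
          have h6 := S.root_le γ hγ D.1
          have h7 : dotR (fun i => (γ i : ℝ)) (S.ρ D.1) = ((dotZ γ (S.ρ D.1) : ℤ) : ℝ) := by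
            rw [dotR, dotZ]; push_cast; rfl
          rw [h7]; exact_mod_cast h6
        have h6 : 0 ≤ a (Sum.inr D) / S.a D.1 :=
          div_nonneg (ha _) (by linarith [haD D.1])
        have h7 : a (Sum.inr D) / S.a D.1 ≤ a (Sum.inr D) := div_le_self (ha _) (haD _)
        calc a (Sum.inr D) / S.a D.1 * dotR (fun i => (γ i : ℝ)) (S.ρ D.1) ≤
              a (Sum.inr D) / S.a D.1 * 2 := mul_le_mul_of_nonneg_left h5 h6
          _ ≤ 2 * a (Sum.inr D) := by linarith
      linarith
  -- every real direction is negative on a section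
  have hbound : ((r : ℝ) * 2 ^ (r + 4) / (ε / 2)) ≤ n := by
    refine le_trans ?_ hn
    rw [div_div_eq_mul_div]
    refine div_le_div_of_nonneg_right ?_ hε.le
    have h1 : (r : ℝ) ≤ d := by exact_mod_cast hd
    have h2 : (2 : ℝ) ^ (r + 5) ≤ 2 ^ (d + 5) :=
      pow_le_pow_right₀ (by norm_num) (by omega)
    have h3 : (r : ℝ) * 2 ^ (r + 4) * 2 = r * 2 ^ (r + 5) := by ring
    rw [h3]
    exact mul_le_mul h1 h2 (by positivity) (by positivity)
  have hneg : ∀ x : Fin r → ℝ, x ≠ 0 → ∃ m : Fin r → ℤ, (∑ i, (m i : ℝ) * x i < 0) ∧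
      (∀ v, F.IsRay v → -(n : ℤ) ≤ dotZ m v) ∧
      ∀ D ∈ A, -((n : ℤ) * S.a D) ≤ dotZ m (S.ρ D) := by
    intro x hx
    have hv0 : lin x ≠ 0 := by
      intro h
      apply hx
      funext i
      rw [← hlin1 x i, h]; rfl
    obtain ⟨m, hm0, hm⟩ := Helper79.KLT.pos_span r (Fin r → ℤ) (by simp)
      ({v // v ∈ rays} ⊕ {D // D ∈ A}) V (ε / 2) (by positivity) hV (lin x) hv0
    refine ⟨m, hm0, fun v hv => ?_, fun D hD => ?_⟩
    · have h1 := hm (Sum.inl ⟨v, (hrays v).2 hv⟩)
      have h2 : V (Sum.inl ⟨v, (hrays v).2 hv⟩) m = (dotZ m v : ℝ) := by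
        show lin (real v) m = _
        rw [hlin, dotZ]; push_cast; rfl
      rw [h2] at h1
      have h3 : (-(n : ℝ)) ≤ (dotZ m v : ℝ) := by linarith
      exact_mod_cast h3
    · have h1 := hm (Sum.inr ⟨D, hD⟩)
      have h6 : (0 : ℝ) < S.a D := by linarith [haD D]
      have h2 : V (Sum.inr ⟨D, hD⟩) m = (dotZ m (S.ρ D) : ℝ) / S.a D := by
        show lin (fun i => (S.ρ D i : ℝ) / S.a D) m = _
        rw [hlin, dotZ]
        push_cast
        rw [Finset.sum_div]
        exact Finset.sum_congr rfl fun i _ => by ring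
      rw [h2] at h1
      have h3 : (-(n : ℝ)) ≤ (dotZ m (S.ρ D) : ℝ) / S.a D := by linarith
      rw [le_div_iff₀ h6] at h3
      have h4 : -((n : ℝ) * S.a D) ≤ (dotZ m (S.ρ D) : ℝ) := by linarith
      exact_mod_cast h4
  -- compactness
  have hcpt : IsCompact (Metric.sphere (0 : Fin r → ℝ) 1) := isCompact_sphere _ _
  let Sec := {m : Fin r → ℤ // (∀ v, F.IsRay v → -(n : ℤ) ≤ dotZ m v) ∧
      ∀ D ∈ A, -((n : ℤ) * S.a D) ≤ dotZ m (S.ρ D)}
  obtain ⟨t, ht⟩ := hcpt.elim_finite_subcover
    (fun m : Sec => {x : Fin r → ℝ | ∑ i, (m.1 i : ℝ) * x i < 0})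
    (fun m => isOpen_lt (by fun_prop) continuous_const)
    (by
      intro x hx
      have hx0 : x ≠ 0 := by
        rintro rfl
        simp at hx
      obtain ⟨m, hm, hm'⟩ := hneg x hx0
      exact Set.mem_iUnion.2 ⟨⟨m, hm'⟩, hm⟩)
  let T : Finset (Fin r → ℤ) := insert 0 (t.image Subtype.val)
  have hTn : T.Nonempty := ⟨0, Finset.mem_insert_self _ _⟩
  have hTsec : ∀ m ∈ T, (∀ v, F.IsRay v → -(n : ℤ) ≤ dotZ m v) ∧
      ∀ D ∈ A, -((n : ℤ) * S.a D) ≤ dotZ m (S.ρ D) := by
    intro m hm
    rcases Finset.mem_insert.1 hm with rfl | h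
    · refine ⟨fun v _ => by simp [dotZ], fun D _ => ?_⟩
      have h1 : (0 : ℤ) ≤ (n : ℤ) * S.a D := by positivity
      simpa [dotZ] using h1
    · obtain ⟨m', _, rfl⟩ := Finset.mem_image.1 h
      exact m'.2
  refine ⟨T, hn2, hTsec, hTn, fun σ hσ w hw hwV hwσ => ?_⟩
  have hwr : real w ≠ 0 := by
    intro h
    apply hw
    funext i
    have := congrFun h i
    simpa [real] using this
  have hnorm : 0 < ‖real w‖ := norm_pos_iff.2 hwr
  have hsph : (‖real w‖⁻¹) • real w ∈ Metric.sphere (0 : Fin r → ℝ) 1 := by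
    rw [mem_sphere_zero_iff_norm, norm_smul, norm_inv, norm_norm]
    exact inv_mul_cancel₀ hnorm.ne'
  obtain ⟨m, hmt, hm⟩ := Set.mem_iUnion₂.1 (ht hsph)
  have hmT : m.1 ∈ T := Finset.mem_insert_of_mem (Finset.mem_image.2 ⟨m, hmt, rfl⟩)
  have hm1 : (dotZ m.1 w : ℝ) < 0 := by
    have h1 : ∑ i, (m.1 i : ℝ) * ((‖real w‖⁻¹) • real w) i = ‖real w‖⁻¹ * (dotZ m.1 w : ℝ) := by
      rw [dotZ]
      push_cast
      rw [Finset.mul_sum]
      refine Finset.sum_congr rfl fun i _ => ?_
      rw [Pi.smul_apply, smul_eq_mul, real]; ring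
    have h2 : ∑ i, (m.1 i : ℝ) * ((‖real w‖⁻¹) • real w) i < 0 := hm
    rw [h1] at h2
    by_contra hcon
    push Not at hcon
    have := mul_nonneg (inv_nonneg.2 hnorm.le) hcon
    linarith
  have hinf : multGeneral (ψ σ) n T hTn w ≤ (dotZ m.1 w : ℝ) + n * dotR (ψ σ) w :=
    Finset.inf'_le _ hmT
  have hnpos : (0 : ℝ) < n := by
    have : 0 < n := by omega
    exact_mod_cast this
  rw [logDisc]
  have h3 : (1 / (n : ℝ)) * multGeneral (ψ σ) n T hTn w ≤
      (1 / n) * ((dotZ m.1 w : ℝ) + n * dotR (ψ σ) w) :=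
    mul_le_mul_of_nonneg_left hinf (by positivity)
  have h4 : (1 / (n : ℝ)) * ((dotZ m.1 w : ℝ) + n * dotR (ψ σ) w) =
      (dotZ m.1 w : ℝ) / n + dotR (ψ σ) w := by
    field_simp
  have h5 : (dotZ m.1 w : ℝ) / n < 0 := div_neg_of_neg_of_pos hm1 hnpos
  rw [h4] at h3
  linarith

end Pool.Agent.Results.MP_bca9b8_ag.SphericalContractions
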