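import Pool.Agent.Helper12.KR.Main3
/-!
# Klt complements of bounded index for quotients by groups with toral identity component

`V = ℂ^N`; `T` is the torus of the diagonal matrices `tor W t = diag (t^(W 0), ..., t^(W (N - 1)))`,
`t ∈ (ℂˣ)^ρ`, with weights `W i ∈ ℤ^ρ`; `H ⊆ GL_N(ℂ)` is a group in which `T` is normal and has finite
index (that is, a reductive group whose identity component is a torus; every diagonalisable group
and every finite group is of this kind).  For a character `θ` let `X = V^ss(θ) // H`,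
`Z = V // H = Spec ℂ[V]^H`; the natural map `f : X → Z` is projective.

Dictionary, when (a) the complement of `V^ss(θ)` in `V` has codimension at least two and (b) outside
closed subsets of codimension two of `V^ss(θ)` and of `X` the map `V^ss(θ) → X` is a principal
`H`-bundle (this holds for the Cox presentation of a toric variety `X` over an affine `Z`, for
`X = Z = ℂ^d / G` if the finite group `G` has no pseudo-reflections, and so on):
* the dimension of `X` is `N - rank W`;
* `-K_X` is given by the character `det` of `H`, and it is nef over `Z` if and only if every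
  `θ`-semistable point is semistable for `det`;
* if `X` is `ε`-lc then `ε ≤ age g` for every elliptic `g ≠ 1` in `H` which fixes a semistable point
  and commutes with `T` (Reid, Tai; for finite stabilisers and `T` central the two are equivalent);
* the effective divisors `n B` with `n (K_X + B) ~ 0`, `n` even, are given by the functions `h` on `V`
  with `h (g x) = det (g) ^ n * h x` for `g ∈ H`: the pullback of `n B` to `V^ss(θ)` is the divisor of
  `h`, and `(dx_1 ∧ ... ∧ dx_N)^n / h` is `H`-invariant;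
* `(X, B)` is klt if `(V^ss(θ), (1/n) div h)` is klt, that is, if `|h| ^ (-2/n)` is locally
  integrable on `V^ss(θ)`.
-/
set_option autoImplicit false
namespace Pool.Agent.Results.MP_bca9b8_ag.ToralQuotients

open MeasureTheory

/-- The number `t ∈ [0, 1)` with `z = exp (2 π i t)`, for `|z| = 1`. -/
noncomputable def theta (z : ℂ) : ℝ :=
  if 0 ≤ z.arg then z.arg / (2 * Real.pi) else z.arg / (2 * Real.pi) + 1

/-- The age of a matrix: the sum of `theta z` over the eigenvalues `z`, counted with multiplicity. -/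
noncomputable def age {N : ℕ} (g : Matrix (Fin N) (Fin N) ℂ) : ℝ :=
  (g.charpoly.roots.map theta).sum

/-- All the eigenvalues have absolute value one. -/
def Elliptic {N : ℕ} (g : Matrix (Fin N) (Fin N) ℂ) : Prop := ∀ z ∈ g.charpoly.roots, ‖z‖ = 1

/-- The character `t ↦ t^w = ∏ t_j ^ (w j)` of the torus `(ℂˣ)^ρ`. -/
noncomputable def chr {ρ : ℕ} (w : Fin ρ → ℤ) (t : Fin ρ → ℂˣ) : ℂˣ := ∏ j, t j ^ w j

/-- The matrix `diag (t^(W 0), ..., t^(W (N - 1)))`. -/
noncomputable def tor {N ρ : ℕ} (W : Fin N → Fin ρ → ℤ) (t : Fin ρ → ℂˣ) : GL (Fin N) ℂ where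
  val := Matrix.diagonal fun i => (chr (W i) t : ℂ)
  inv := Matrix.diagonal fun i => (((chr (W i) t)⁻¹ : ℂˣ) : ℂ)
  val_inv := by simp [Matrix.diagonal_mul_diagonal]
  inv_val := by simp [Matrix.diagonal_mul_diagonal]

/-- The torus of the matrices `tor W t`. -/
noncomputable def torus {N ρ : ℕ} (W : Fin N → Fin ρ → ℤ) : Subgroup (GL (Fin N) ℂ) :=
  Subgroup.closure (Set.range (tor W))

/-- The sum of the weights, the restriction of the character `det` to the torus. -/
def can {N ρ : ℕ} (W : Fin N → Fin ρ → ℤ) : Fin ρ → ℤ := fun j => ∑ i, W i j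

/-- The Laurent monomial `∏ x_i ^ (m i)` is invariant under the torus. -/
def Inv {N ρ : ℕ} (W : Fin N → Fin ρ → ℤ) (m : Fin N → ℤ) : Prop := ∀ j, ∑ i, m i * W i j = 0

/-- `u` is semistable for the character `θ`: there is a polynomial `f` with
`f (t x) = (t^θ)^n f (x)`, `n > 0`, which does not vanish at `u`. -/
def Sst {N ρ : ℕ} (W : Fin N → Fin ρ → ℤ) (θ : Fin ρ → ℤ) (u : Fin N → ℂ) : Prop :=
  ∃ (n : ℕ) (f : MvPolynomial (Fin N) ℂ), 0 < n ∧
    (∀ (t : Fin ρ → ℂˣ) (x : Fin N → ℂ),
      MvPolynomial.eval ((tor W t : Matrix (Fin N) (Fin N) ℂ).mulVec x) f =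
        (chr θ t : ℂ) ^ n * MvPolynomial.eval x f) ∧
    MvPolynomial.eval u f ≠ 0

/-- The data: `H` contains the torus as a normal subgroup of finite index and preserves the set of
the `θ`-semistable points, and `N - rank W ≤ d`.  The last condition says that coordinates of
different weights which are exchanged by `H` are distinguished by an invariant Laurent monomial (it is
empty if `T` is central in `H`, and it holds if the divisors `x_i = 0` on `X` are different). -/
structure Presentation {N ρ : ℕ} (d : ℕ) (W : Fin N → Fin ρ → ℤ) (θ : Fin ρ → ℤ)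
    (H : Subgroup (GL (Fin N) ℂ)) : Prop where
  torus_mem : ∀ t, tor W t ∈ H
  normal : ∀ g ∈ H, ∀ t, ∃ t', g * tor W t = tor W t' * g
  index : (torus W).relIndex H ≠ 0
  stable : ∀ g ∈ H, ∀ u, Sst W θ u → Sst W θ ((g : Matrix (Fin N) (Fin N) ℂ).mulVec u)
  dim : N ≤ d + (Matrix.of fun i j => (W i j : ℚ)).rank
  distinct : ∀ g ∈ H, ∀ i l, (g : Matrix (Fin N) (Fin N) ℂ) i l ≠ 0 → W i ≠ W l →
    ∃ m, Inv W m ∧ m i ≠ m l

/-- `-K_X` is nef over `Z`. -/
def AntiNef {N ρ : ℕ} (W : Fin N → Fin ρ → ℤ) (θ : Fin ρ → ℤ) : Prop :=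
  ∀ u, Sst W θ u → Sst W (can W) u

/-- The elliptic elements `g ≠ 1` of `H` which commute with the torus and fix a semistable point have
age at least `ε`. -/
def IsLc {N ρ : ℕ} (W : Fin N → Fin ρ → ℤ) (θ : Fin ρ → ℤ) (H : Subgroup (GL (Fin N) ℂ)) (ε : ℝ) :
    Prop :=
  ∀ g ∈ H, (∀ t, g * tor W t = tor W t * g) → ∀ u, Sst W θ u →
    (g : Matrix (Fin N) (Fin N) ℂ).mulVec u = u → g ≠ 1 →
    Elliptic (g : Matrix (Fin N) (Fin N) ℂ) → ε ≤ age (g : Matrix (Fin N) (Fin N) ℂ)

/-- `h (g x) = det (g) ^ n * h (x)` for all `g` in `H`, and `|h| ^ (-2/n)` is integrable near every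
`θ`-semistable point. -/
def IsKltComplement {N ρ : ℕ} (W : Fin N → Fin ρ → ℤ) (θ : Fin ρ → ℤ)
    (H : Subgroup (GL (Fin N) ℂ)) (n : ℕ) (h : MvPolynomial (Fin N) ℂ) : Prop :=
  (∀ g ∈ H, ∀ x : Fin N → ℂ,
    MvPolynomial.eval ((g : Matrix (Fin N) (Fin N) ℂ).mulVec x) h =
      (g : Matrix (Fin N) (Fin N) ℂ).det ^ n * MvPolynomial.eval x h) ∧
  ∀ u, Sst W θ u →
    ∃ U ∈ nhds u, ∫⁻ x in U, ‖MvPolynomial.eval x h‖ₑ ^ (-(2 / (n : ℝ))) < ⊤

/-- For every `d` there is an even `C > 0` such that for all `0 < ε ≤ 1` and all integers `k ≥ 2` with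
`k ≥ d 2^(d+4) / ε`, every `X = V^ss(θ) // H` as above of dimension at most `d`, `ε`-lc and with `-K_X` nef
over `Z = V // H`, has a klt `k C`-complement. -/
theorem result (d : ℕ) : ∃ C : ℕ, 0 < C ∧ Even C ∧ ∀ ε : ℝ, 0 < ε → ε ≤ 1 → ∀ k : ℕ, 2 ≤ k →
    d * 2 ^ (d + 4) / ε ≤ k → ∀ (N ρ : ℕ) (W : Fin N → Fin ρ → ℤ) (θ : Fin ρ → ℤ)
    (H : Subgroup (GL (Fin N) ℂ)), Presentation d W θ H → AntiNef W θ → IsLc W θ H ε →
    ∃ h : MvPolynomial (Fin N) ℂ, IsKltComplement W θ H (k * C) h := by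
  obtain ⟨C, hC, h0⟩ := Pool.Agent.Helper12.KR.main3 d
  refine ⟨2 * C, by omega, ⟨C, by ring⟩, ?_⟩
  intro ε hε hε1 k hk2 hk N ρ W θ H hP hnef hlc
  have ht : ∀ t, Pool.Agent.Helper12.KR.tor W t = tor W t := fun t => Units.ext rfl
  have hr : (Pool.Agent.Helper12.KR.tor W).range = torus W := by
    rw [torus, ← Subgroup.closure_eq (Pool.Agent.Helper12.KR.tor W).range]
    congr 1
  have hk' : d * 2 ^ (d + 4) / ε ≤ ((2 * k : ℕ) : ℝ) := by
    push_cast
    have : (0 : ℝ) ≤ k := Nat.cast_nonneg k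
    linarith
  obtain ⟨h, h1, h2⟩ := h0 ε hε hε1 (2 * k) (by omega) hk' N ρ W θ H hP.dim
    (fun t => by rw [ht]; exact hP.torus_mem t) (by rw [hr]; exact hP.index)
    (fun g hg t => by
      obtain ⟨t', h1⟩ := hP.normal g hg t
      exact ⟨t', by rw [ht, ht]; exact h1⟩)
    hP.distinct hP.stable hnef
    (fun g hg hc u hu hfix hne hell => hlc g hg (fun t => by rw [← ht]; exact hc t) u hu hfix hne
      hell)
  have hkC : k * (2 * C) = 2 * k * C := by ring
  rw [hkC]
  exact ⟨h, h1, h2⟩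

end Pool.Agent.Results.MP_bca9b8_ag.ToralQuotients
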